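import Mathlib
import Pool.Agent.R634.WreathPrime2
import Pool.Agent.R634.WreathFG

/-!
# MP_9ae5d9: the conjectured lower bounds for conjugacy depth of `𝔽_p ≀ ℤ^k`, `ℤ ≀ ℤ^k` fail
-/

namespace Pool.Agent.Results.MP_9ae5d9_al.PrimeReduction

open Pool.Agent.R634 Filter

lemma exists_value {G : Type*} [Group G] {S : Set G} (h : ∀ n, conjDepth S n ≠ ⊤) :
    ∃ F : ℕ → ℕ, ∀ n, conjDepth S n = F n := by
  have h1 : ∀ n, ∃ m : ℕ, conjDepth S n = m := by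
    intro n
    obtain ⟨m, hm⟩ := ENat.ne_top_iff_exists.mp (h n)
    exact ⟨m, hm.symm⟩
  choose F hF using h1
  exact ⟨F, hF⟩

lemma ball_zero {G : Type*} [Group G] (S : Set G) : ∀ x ∈ ball S 0, x = 1 := by
  rintro x ⟨l, hl, -, rfl⟩
  have : l = [] := List.length_eq_zero_iff.mp (Nat.le_zero.mp hl)
  rw [this, List.prod_nil]

lemma conjDepth_zero {G : Type*} [Group G] (S : Set G) : conjDepth S 0 = 0 := by
  refine le_antisymm ?_ bot_le
  apply conjDepth_le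
  intro x hx y hy hnc
  exact absurd (by rw [ball_zero S x hx, ball_zero S y hy]) hnc

/-- The key asymptotic comparison. -/
lemma not_preceq {F : ℕ → ℕ} {C : ℝ} (hC : 0 < C)
    (hF : ∀ n : ℕ, 1 ≤ n → (F n : ℝ) ≤ Real.exp (C * n ^ 3 * Real.log (n + 1) ^ 2))
    {k : ℕ} (hk : 4 ≤ k) (g : ℕ → ℝ) (hg : ∀ᶠ n : ℕ in atTop, (2:ℝ) ^ (n ^ k) ≤ g n) :
    ¬ Preceq g (fun n => (F n : ℝ)) := by
  rintro ⟨K, hK, h⟩
  have hK' : (1:ℝ) ≤ K := by exact_mod_cast hK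
  -- log (K n + 1)^2 is o(n)
  have h1 : ∀ᶠ x : ℝ in atTop, Real.log x ^ 2 ≤ 1 / (8 * C * K ^ 4) * x := by
    have h2 := (Real.isLittleO_pow_log_id_atTop (n := 2)).bound
      (show (0:ℝ) < 1 / (8 * C * K ^ 4) by positivity)
    filter_upwards [h2, eventually_ge_atTop 1] with x hx hx1
    rw [Real.norm_eq_abs, Real.norm_eq_abs, id_eq, abs_of_nonneg (by positivity),
      abs_of_nonneg (by linarith)] at hx
    exact hx
  have h3 : Tendsto (fun n : ℕ => (K : ℝ) * n + 1) atTop atTop := by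
    apply tendsto_atTop_add_const_right
    exact tendsto_natCast_atTop_atTop.const_mul_atTop (by linarith)
  have h4 := h3.eventually h1
  obtain ⟨n, hn1, hn2, hn3, hn4⟩ := (h4.and (hg.and ((eventually_ge_atTop 1).and
    (eventually_ge_atTop (⌈8 * Real.log K⌉₊ + 1))))).exists
  have hn1' : (1:ℝ) ≤ n := by exact_mod_cast hn3
  have hlogK : 8 * Real.log K ≤ n := by
    have h5 := Nat.le_ceil (8 * Real.log K)
    have h6 : ((⌈8 * Real.log K⌉₊ + 1 : ℕ) : ℝ) ≤ n := by exact_mod_cast hn4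
    push_cast at h6
    linarith
  have h5 := (hn2.trans (h n))
  have hKn : 1 ≤ K * n := Nat.mul_pos hK hn3
  have h6 := hF (K * n) hKn
  have h7 : (2:ℝ) ^ (n ^ k) ≤ K * Real.exp (C * ((K * n : ℕ) : ℝ) ^ 3 *
      Real.log (((K * n : ℕ) : ℝ) + 1) ^ 2) :=
    h5.trans (mul_le_mul_of_nonneg_left h6 (by positivity))
  have h8 := Real.log_le_log (by positivity) h7
  rw [Real.log_pow, Real.log_mul (by positivity) (Real.exp_pos _).ne', Real.log_exp] at h8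
  push_cast at h8
  -- n^4 log 2 ≤ log K + C K^3 n^3 * (1/(8 C K^4)) (K n + 1)
  have h9 : C * ((K:ℝ) * n) ^ 3 * Real.log ((K:ℝ) * n + 1) ^ 2 ≤
      C * ((K:ℝ) * n) ^ 3 * (1 / (8 * C * K ^ 4) * ((K:ℝ) * n + 1)) :=
    mul_le_mul_of_nonneg_left hn1 (by positivity)
  have h10 : C * ((K:ℝ) * n) ^ 3 * (1 / (8 * C * K ^ 4) * ((K:ℝ) * n + 1)) ≤ (n:ℝ) ^ 4 / 4 := by
    have h11 : (K:ℝ) * n + 1 ≤ 2 * (K * n) := by nlinarith
    calc C * ((K:ℝ) * n) ^ 3 * (1 / (8 * C * K ^ 4) * ((K:ℝ) * n + 1))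
        ≤ C * ((K:ℝ) * n) ^ 3 * (1 / (8 * C * K ^ 4) * (2 * (K * n))) := by
          apply mul_le_mul_of_nonneg_left _ (by positivity)
          exact mul_le_mul_of_nonneg_left h11 (by positivity)
      _ = (n:ℝ) ^ 4 / 4 := by
          field_simp
          ring
  have h12 : (n:ℝ) ^ 4 ≤ (n:ℝ) ^ k := pow_le_pow_right₀ hn1' hk
  have h13 : (0.6931471803:ℝ) < Real.log 2 := Real.log_two_gt_d9
  have h14 : (n:ℝ) ≤ (n:ℝ) ^ 4 := le_self_pow₀ hn1' (by norm_num)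
  have h15 : (n:ℝ) ^ 4 * 0.6931471803 ≤ (n:ℝ) ^ k * Real.log 2 := by
    apply mul_le_mul h12 h13.le (by norm_num) (by positivity)
  linarith

/-- `card ^ D * D` for `D ≤ C n³ log (n + 1)`. -/
lemma pow_mul_le_exp (c D : ℕ) (hc : 2 ≤ c) (_hD : 1 ≤ D) :
    ((c ^ D * D : ℕ) : ℝ) ≤ Real.exp (2 * D * Real.log c) := by
  have h1 : c ^ D * D ≤ c ^ (2 * D) := by
    rw [two_mul, pow_add]
    apply Nat.mul_le_mul_left
    exact (Nat.lt_pow_self (by omega : 1 < c)).le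
  have hc0 : (0:ℝ) < c := by
    have : 0 < c := by omega
    exact_mod_cast this
  calc ((c ^ D * D : ℕ) : ℝ) ≤ ((c ^ (2 * D) : ℕ) : ℝ) := by exact_mod_cast h1
    _ = Real.exp (Real.log ((c:ℝ) ^ (2 * D))) := by
        rw [Real.exp_log (by positivity)]
        push_cast
        rfl
    _ = Real.exp (2 * D * Real.log c) := by
        rw [Real.log_pow]
        push_cast
        rfl

theorem bound_prime_case {p : ℕ} (hp : p.Prime) {k : ℕ} (hk : 1 ≤ k)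
    {S : Set (Wreath (ZMod p) (Fin k → ℤ))} (hS : S.Finite) :
    ∃ F : ℕ → ℕ, (∀ n, conjDepth S n = F n) ∧ ∃ C : ℝ, 0 < C ∧
      ∀ n : ℕ, 1 ≤ n → (F n : ℝ) ≤ Real.exp (C * n ^ 3 * Real.log (n + 1)) := by
  classical
  have : NeZero p := ⟨hp.ne_zero⟩
  obtain ⟨ρ, C, hρ, hC, h⟩ := conjDepth_prime (isSize_discrete (ZMod p)) hk hS
  have hb : ∀ n : ℕ, 1 ≤ n → ∃ D : ℕ, 1 ≤ D ∧ (D : ℝ) ≤ C * n ^ 3 * Real.log (n + 1) ∧
      conjDepth S n ≤ ((p ^ D * D : ℕ) : ℕ∞) := by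
    intro n hn
    obtain ⟨D, hD1, hD, hle⟩ := h n hn
    refine ⟨D, hD1, hD, ?_⟩
    have := hle (ZMod p) (AddMonoidHom.id _) (fun z _ hz => hz)
    rwa [Nat.card_eq_fintype_card, ZMod.card] at this
  have hne : ∀ n, conjDepth S n ≠ ⊤ := by
    intro n
    rcases Nat.eq_zero_or_pos n with rfl | hn
    · rw [conjDepth_zero]; simp
    · obtain ⟨D, -, -, hle⟩ := hb n hn
      exact ne_top_of_le_ne_top (ENat.natCast_ne_top _) hle
  obtain ⟨F, hF⟩ := exists_value hne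
  have hlogp : 0 < Real.log p := Real.log_pos (by exact_mod_cast hp.one_lt)
  refine ⟨F, hF, 2 * C * Real.log p, by positivity, ?_⟩
  intro n hn
  obtain ⟨D, hD1, hD, hle⟩ := hb n hn
  rw [hF n] at hle
  have h1 : F n ≤ p ^ D * D := by exact_mod_cast hle
  have h2 : (F n : ℝ) ≤ ((p ^ D * D : ℕ) : ℝ) := by exact_mod_cast h1
  refine h2.trans ((pow_mul_le_exp p D hp.two_le hD1).trans ?_)
  apply Real.exp_le_exp.mpr
  calc 2 * (D:ℝ) * Real.log p ≤ 2 * (C * n ^ 3 * Real.log (n + 1)) * Real.log p := by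
        apply mul_le_mul_of_nonneg_right _ hlogp.le
        linarith
    _ = 2 * C * Real.log p * n ^ 3 * Real.log (n + 1) := by ring

theorem bound_int_case {k : ℕ} (hk : 1 ≤ k) {S : Set (Wreath ℤ (Fin k → ℤ))} (hS : S.Finite) :
    ∃ F : ℕ → ℕ, (∀ n, conjDepth S n = F n) ∧ ∃ C : ℝ, 0 < C ∧
      ∀ n : ℕ, 1 ≤ n → (F n : ℝ) ≤ Real.exp (C * n ^ 3 * Real.log (n + 1) ^ 2) := by
  classical
  obtain ⟨ρ, C, hρ, hC, h⟩ := conjDepth_prime isSize_int hk hS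
  have hb : ∀ n : ℕ, 1 ≤ n → ∃ D : ℕ, 1 ≤ D ∧ (D : ℝ) ≤ C * n ^ 3 * Real.log (n + 1) ∧
      conjDepth S n ≤ (((2 * (ρ * n) + 1) ^ D * D : ℕ) : ℕ∞) := by
    intro n hn
    obtain ⟨D, hD1, hD, hle⟩ := h n hn
    refine ⟨D, hD1, hD, ?_⟩
    have := hle (ZMod (2 * (ρ * n) + 1)) (Int.castAddHom _)
      (fun z hz hz0 => int_cast_inj z hz hz0)
    rwa [Nat.card_eq_fintype_card, ZMod.card] at this
  have hne : ∀ n, conjDepth S n ≠ ⊤ := by
    intro n
    rcases Nat.eq_zero_or_pos n with rfl | hn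
    · rw [conjDepth_zero]; simp
    · obtain ⟨D, -, -, hle⟩ := hb n hn
      exact ne_top_of_le_ne_top (ENat.natCast_ne_top _) hle
  obtain ⟨F, hF⟩ := exists_value hne
  have hlog2 : 0 < Real.log 2 := Real.log_pos (by norm_num)
  have hρ1 : (1:ℝ) ≤ ρ := by exact_mod_cast hρ
  set L : ℝ := Real.log (3 * ρ) / Real.log 2 + 1 with hL
  have hlog3ρ : 0 ≤ Real.log (3 * ρ) := Real.log_nonneg (by linarith)
  have hLpos : 0 < L := by positivity
  refine ⟨F, hF, 2 * C * L, by positivity, ?_⟩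
  intro n hn
  obtain ⟨D, hD1, hD, hle⟩ := hb n hn
  rw [hF n] at hle
  have hn1 : (1:ℝ) ≤ n := by exact_mod_cast hn
  have h1 : F n ≤ (2 * (ρ * n) + 1) ^ D * D := by exact_mod_cast hle
  have h2 : (F n : ℝ) ≤ (((2 * (ρ * n) + 1) ^ D * D : ℕ) : ℝ) := by exact_mod_cast h1
  have hc2 : 2 ≤ 2 * (ρ * n) + 1 := by
    have : 1 ≤ ρ * n := Nat.mul_pos hρ hn
    omega
  refine h2.trans ((pow_mul_le_exp _ D hc2 hD1).trans ?_)
  apply Real.exp_le_exp.mpr
  have hlogn : Real.log 2 ≤ Real.log ((n:ℝ) + 1) :=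
    Real.log_le_log (by norm_num) (by linarith)
  have hlog0 : 0 ≤ Real.log ((n:ℝ) + 1) := Real.log_nonneg (by linarith)
  have h3 : Real.log ((2 * (ρ * n) + 1 : ℕ) : ℝ) ≤ L * Real.log (n + 1) := by
    have h4 : ((2 * (ρ * n) + 1 : ℕ) : ℝ) ≤ (3 * ρ) * ((n:ℝ) + 1) := by
      push_cast
      nlinarith
    have h5 : Real.log ((2 * (ρ * n) + 1 : ℕ) : ℝ) ≤ Real.log ((3 * ρ) * ((n:ℝ) + 1)) := by
      apply Real.log_le_log _ h4
      positivity
    rw [Real.log_mul (by positivity) (by positivity)] at h5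
    have h7 : Real.log (3 * (ρ:ℝ)) ≤ Real.log (3 * ρ) / Real.log 2 * Real.log (n + 1) := by
      calc Real.log (3 * (ρ:ℝ)) = Real.log (3 * ρ) / Real.log 2 * Real.log 2 := by
            field_simp
        _ ≤ _ := mul_le_mul_of_nonneg_left hlogn (by positivity)
    rw [hL]
    linarith
  calc 2 * (D:ℝ) * Real.log ((2 * (ρ * n) + 1 : ℕ) : ℝ)
      ≤ 2 * (D:ℝ) * (L * Real.log (n + 1)) := by
        apply mul_le_mul_of_nonneg_left h3 (by positivity)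
    _ ≤ 2 * (C * n ^ 3 * Real.log (n + 1)) * (L * Real.log (n + 1)) := by
        apply mul_le_mul_of_nonneg_right _ (mul_nonneg hLpos.le hlog0)
        linarith
    _ = 2 * C * L * n ^ 3 * Real.log (n + 1) ^ 2 := by ring

/-- **Negative answer to Q1 and Q2 of MP_9ae5d9**, for every `k ≥ 4` (and every prime `p`),
with explicit `k`-independent upper bounds for all `k ≥ 1`. -/
theorem result :
    -- the groups are finitely generated
    ((∀ (p k : ℕ), ∃ S : Set (Wreath (ZMod p) (Fin k → ℤ)), S.Finite ∧ Subgroup.closure S = ⊤) ∧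
      (∀ k : ℕ, ∃ S : Set (Wreath ℤ (Fin k → ℤ)), S.Finite ∧ Subgroup.closure S = ⊤)) ∧
    -- `𝔽_p ≀ ℤ^k`
    (∀ p : ℕ, p.Prime → ∀ k : ℕ, 1 ≤ k → ∀ S : Set (Wreath (ZMod p) (Fin k → ℤ)), S.Finite →
      Subgroup.closure S = ⊤ → ∃ F : ℕ → ℕ, (∀ n, conjDepth S n = F n) ∧
        (∃ C : ℝ, 0 < C ∧
          ∀ n : ℕ, 1 ≤ n → (F n : ℝ) ≤ Real.exp (C * n ^ 3 * Real.log (n + 1))) ∧
        (4 ≤ k → ¬ Preceq (fun n => (2:ℝ) ^ (n ^ k)) (fun n => (F n : ℝ)))) ∧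
    -- `ℤ ≀ ℤ^k`
    (∀ k : ℕ, 1 ≤ k → ∀ S : Set (Wreath ℤ (Fin k → ℤ)), S.Finite →
      Subgroup.closure S = ⊤ → ∃ F : ℕ → ℕ, (∀ n, conjDepth S n = F n) ∧
        (∃ C : ℝ, 0 < C ∧
          ∀ n : ℕ, 1 ≤ n → (F n : ℝ) ≤ Real.exp (C * n ^ 3 * Real.log (n + 1) ^ 2)) ∧
        (4 ≤ k → ¬ Preceq (fun n => Real.log n ^ (n ^ k)) (fun n => (F n : ℝ)))) := by
  refine ⟨⟨fun p k => ?_, fun k => ?_⟩, ?_, ?_⟩
  · exact exists_finite_generating (1 : ZMod p) (fun r => by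
      obtain ⟨z, hz⟩ := ZMod.intCast_surjective r
      exact ⟨z, by rw [zsmul_one, hz]⟩)
  · exact exists_finite_generating (1 : ℤ) (fun r => ⟨r, by simp⟩)
  · intro p hp k hk S hS _
    obtain ⟨F, hF, C, hC, hFC⟩ := bound_prime_case hp hk hS
    refine ⟨F, hF, ⟨C, hC, hFC⟩, ?_⟩
    intro hk4
    have hlog2 : 0 < Real.log 2 := Real.log_pos (by norm_num)
    refine not_preceq (C := C / Real.log 2) (by positivity) ?_ hk4 _
      (Eventually.of_forall fun n => le_rfl)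
    intro n hn
    refine (hFC n hn).trans ?_
    apply Real.exp_le_exp.mpr
    have hn1 : (1:ℝ) ≤ n := by exact_mod_cast hn
    have hlogn : Real.log 2 ≤ Real.log ((n:ℝ) + 1) :=
      Real.log_le_log (by norm_num) (by linarith)
    have hlog0 : 0 ≤ Real.log ((n:ℝ) + 1) := Real.log_nonneg (by linarith)
    calc C * n ^ 3 * Real.log (n + 1) = C / Real.log 2 * n ^ 3 * Real.log (n + 1) * Real.log 2 := by
          field_simp
      _ ≤ C / Real.log 2 * n ^ 3 * Real.log (n + 1) * Real.log (n + 1) := by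
          apply mul_le_mul_of_nonneg_left hlogn
          exact mul_nonneg (by positivity) hlog0
      _ = C / Real.log 2 * n ^ 3 * Real.log (n + 1) ^ 2 := by ring
  · intro k hk S hS _
    obtain ⟨F, hF, C, hC, hFC⟩ := bound_int_case hk hS
    refine ⟨F, hF, ⟨C, hC, hFC⟩, ?_⟩
    intro hk4
    refine not_preceq hC hFC hk4 _ ?_
    filter_upwards [eventually_ge_atTop 16] with n hn
    have hlog : (2:ℝ) ≤ Real.log (n : ℝ) := by
      have hn' : (16:ℝ) ≤ n := by exact_mod_cast hn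
      rw [Real.le_log_iff_exp_le (by linarith)]
      have h1 : Real.exp 2 = Real.exp 1 * Real.exp 1 := by
        rw [← Real.exp_add]; norm_num
      have h2 : Real.exp 1 < 2.7182818286 := Real.exp_one_lt_d9
      have h3 : (0:ℝ) < Real.exp 1 := Real.exp_pos 1
      have h4 : Real.exp 2 ≤ 16 := by rw [h1]; nlinarith
      linarith
    exact pow_le_pow_left₀ (by norm_num) hlog _

end Pool.Agent.Results.MP_9ae5d9_al.PrimeReduction
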